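import Pool.Agent.H82.RP.TD
import Pool.Agent.H18.MTP.ZC

/-! Row ZCL of `rpw_modules`: close changes. -/

set_option autoImplicit false

open Finset Filter Topology

namespace Pool.Agent.H79.RP

open Pool.Agent.H31.MP Pool.Agent.H82.RP
open Pool.Agent.H18.MTP (PQ card_PQ prime_card)

/-- the right endpoint -/
noncomputable def psl (lam : ℝ) (m : ℕ) : ℕ := m + 2 + ⌊lam * Real.log (m : ℝ)⌋₊

theorem psl_inj {lam : ℝ} (hl : 0 < lam) : Function.Injective (psl lam) := by
  have h : StrictMono (psl lam) := by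
    intro a b hab
    unfold psl
    have h1 : ⌊lam * Real.log (a : ℝ)⌋₊ ≤ ⌊lam * Real.log (b : ℝ)⌋₊ := by
      rcases Nat.eq_zero_or_pos a with rfl | ha
      · simp
      · exact Nat.floor_le_floor (mul_le_mul_of_nonneg_left
          (Real.log_le_log (by exact_mod_cast ha) (by exact_mod_cast hab.le)) hl.le)
    omega
  exact h.injective

theorem inv_psl {lam : ℝ} (hl : 0 < lam) (m : ℕ) :
    Function.invFun (psl lam) (psl lam m) = m :=
  Function.leftInverse_invFun (psl_inj hl) m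

/-- the combinatorial part -/
theorem zcl_comb {lam : ℝ} (hl : 0 < lam) (n T c Λ : ℕ) (A : Finset ℕ) (hT : 2 * c + 10 ≤ T)
    (hΛ : 2 * T ≤ Λ)
    (hA : ∀ m ∈ A, ∃ L m' : ℕ, ⌊lam * Real.log (m : ℝ)⌋₊ = L ∧ ⌊lam * Real.log (m' : ℝ)⌋₊ = L ∧
      m < m' ∧ m' ≤ m + T ∧ EvL lam m ∧ EvL lam m' ∧ Λ ≤ L + c ∧ L ≤ Λ + c ∧
      m + 4 + Λ + c ≤ 2 * n) :
    A.card ≤ 2 * (PQ (2 * n + 1) (Icc 1 (1 + T))).card +
      (2 * (PQ (2 * n + 1) (Icc (Λ - c) (Λ - c + T))).card +
      (PQ (2 * n + 1) (Icc (Λ - c + T) (Λ - c + T + T))).card +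
      (PQ (2 * n + 1) (Icc (Λ - c - T) (Λ - c - T + T))).card) := by
  classical
  set P0 := PQ (2 * n + 1) (Icc 1 (1 + T)) with hP0
  set P1 := PQ (2 * n + 1) (Icc (Λ - c) (Λ - c + T)) with hP1
  set P2 := PQ (2 * n + 1) (Icc (Λ - c + T) (Λ - c + T + T)) with hP2
  set P3 := PQ (2 * n + 1) (Icc (Λ - c - T) (Λ - c - T + T)) with hP3
  have hsub : A ⊆ (P0.image fun q => q.2) ∪ (P0.image fun q => Function.invFun (psl lam) q.2) ∪
      ((P1.image fun q => q.2) ∪ (P2.image fun q => q.2)) ∪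
      ((P3.image fun q => Function.invFun (psl lam) (q.2 + q.1)) ∪
        (P1.image fun q => Function.invFun (psl lam) (q.2 + q.1))) := by
    intro m hm
    obtain ⟨L, m', hL, hL', h1, h2, h3, h4, h5, h6, h7⟩ := hA m hm
    have hpm : psl lam m = m + 2 + L := by rw [psl, hL]
    have hpm' : psl lam m' = m' + 2 + L := by rw [psl, hL']
    have hev : m.Prime ∨ (psl lam m).Prime := h3
    have hev' : m'.Prime ∨ (psl lam m').Prime := h4
    simp only [mem_union, mem_image, PQ, mem_filter, mem_product, mem_Icc, mem_range, hP0, hP1,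
      hP2, hP3]
    rcases hev with e1 | e1 <;> rcases hev' with e2 | e2
    · -- both prime
      refine Or.inl (Or.inl (Or.inl ⟨(m' - m, m), ⟨⟨⟨?_, ?_⟩, ?_⟩, e1, ?_⟩, rfl⟩))
      · show 1 ≤ m' - m; omega
      · show m' - m ≤ 1 + T; omega
      · show m < 2 * n + 1; omega
      · show (m + (m' - m)).Prime
        rw [show m + (m' - m) = m' by omega]; exact e2
    · -- `m` prime, `psl m'` prime
      have e3 : (m + (m' - m + 2 + L)).Prime := by
        rw [show m + (m' - m + 2 + L) = psl lam m' by rw [hpm']; omega]; exact e2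
      refine Or.inl (Or.inr ?_)
      by_cases hs : m' - m + 2 + L ≤ Λ - c + T
      · refine Or.inl ⟨(m' - m + 2 + L, m), ⟨⟨⟨?_, ?_⟩, ?_⟩, e1, e3⟩, rfl⟩
        · show Λ - c ≤ m' - m + 2 + L; omega
        · exact hs
        · show m < 2 * n + 1; omega
      · refine Or.inr ⟨(m' - m + 2 + L, m), ⟨⟨⟨?_, ?_⟩, ?_⟩, e1, e3⟩, rfl⟩
        · show Λ - c + T ≤ m' - m + 2 + L; omega
        · show m' - m + 2 + L ≤ Λ - c + T + T; omega
        · show m < 2 * n + 1; omega
    · -- `psl m` prime, `m'` prime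
      have e3 : (m' + (2 + L - (m' - m))).Prime := by
        rw [show m' + (2 + L - (m' - m)) = psl lam m by rw [hpm]; omega]; exact e1
      have e4 : Function.invFun (psl lam) (m' + (2 + L - (m' - m))) = m := by
        rw [show m' + (2 + L - (m' - m)) = psl lam m by rw [hpm]; omega]
        exact inv_psl hl m
      refine Or.inr ?_
      by_cases hs : 2 + L - (m' - m) ≤ Λ - c - T + T
      · refine Or.inl ⟨(2 + L - (m' - m), m'), ⟨⟨⟨?_, ?_⟩, ?_⟩, e2, e3⟩, e4⟩
        · show Λ - c - T ≤ 2 + L - (m' - m); omega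
        · exact hs
        · show m' < 2 * n + 1; omega
      · refine Or.inr ⟨(2 + L - (m' - m), m'), ⟨⟨⟨?_, ?_⟩, ?_⟩, e2, e3⟩, e4⟩
        · show Λ - c ≤ 2 + L - (m' - m); omega
        · show 2 + L - (m' - m) ≤ Λ - c + T; omega
        · show m' < 2 * n + 1; omega
    · -- both `psl` prime
      refine Or.inl (Or.inl (Or.inr ⟨(m' - m, psl lam m), ⟨⟨⟨?_, ?_⟩, ?_⟩, e1, ?_⟩,
        inv_psl hl m⟩))
      · show 1 ≤ m' - m; omega
      · show m' - m ≤ 1 + T; omega
      · show psl lam m < 2 * n + 1; omega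
      · show (psl lam m + (m' - m)).Prime
        rw [show psl lam m + (m' - m) = psl lam m' by omega]; exact e2
  refine (card_le_card hsub).trans ?_
  refine (card_union_le _ _).trans ?_
  have c1 := card_union_le ((P0.image fun q => q.2) ∪
    (P0.image fun q => Function.invFun (psl lam) q.2))
    ((P1.image fun q => q.2) ∪ (P2.image fun q => q.2))
  have c2 := card_union_le (P0.image fun q => q.2)
    (P0.image fun q => Function.invFun (psl lam) q.2)
  have c3 := card_union_le (P1.image fun q => q.2) (P2.image fun q => q.2)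
  have c4 := card_union_le (P3.image fun q => Function.invFun (psl lam) (q.2 + q.1))
    (P1.image fun q => Function.invFun (psl lam) (q.2 + q.1))
  have d1 : (P0.image fun q => q.2).card ≤ P0.card := card_image_le
  have d2 : (P0.image fun q => Function.invFun (psl lam) q.2).card ≤ P0.card := card_image_le
  have d3 : (P1.image fun q => q.2).card ≤ P1.card := card_image_le
  have d4 : (P2.image fun q => q.2).card ≤ P2.card := card_image_le
  have d5 : (P3.image fun q => Function.invFun (psl lam) (q.2 + q.1)).card ≤ P3.card :=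
    card_image_le
  have d6 : (P1.image fun q => Function.invFun (psl lam) (q.2 + q.1)).card ≤ P1.card :=
    card_image_le
  omega

/-- the trivial bound -/
theorem zcl_triv {lam : ℝ} (hl : 0 < lam) (n : ℕ) (A : Finset ℕ)
    (hA : ∀ m ∈ A, EvL lam m ∧ psl lam m ≤ 2 * n) :
    A.card ≤ 2 * Nat.primeCounting (2 * n) := by
  classical
  have hsub : A ⊆ ((range (2 * n + 1)).filter Nat.Prime) ∪
      (((range (2 * n + 1)).filter Nat.Prime).image (Function.invFun (psl lam))) := by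
    intro m hm
    obtain ⟨h1, h2⟩ := hA m hm
    have h3 : m ≤ psl lam m := by unfold psl; omega
    have h1' : m.Prime ∨ (psl lam m).Prime := h1
    rw [mem_union, mem_image]
    rcases h1' with h | h
    · refine Or.inl (mem_filter.2 ⟨mem_range.2 (by omega), h⟩)
    · exact Or.inr ⟨psl lam m, mem_filter.2 ⟨mem_range.2 (by omega), h⟩, inv_psl hl m⟩
  refine (card_le_card hsub).trans ((card_union_le _ _).trans ?_)
  have h1 : (((range (2 * n + 1)).filter Nat.Prime).image (Function.invFun (psl lam))).card ≤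
      ((range (2 * n + 1)).filter Nat.Prime).card := card_image_le
  rw [← prime_card]
  omega

theorem pf_ZCL (h1 : T_ZPL) : T_ZCL := by
  classical
  intro lam hl
  obtain ⟨C₀, hC₀, hZ⟩ := h1 (lam + 3) (by positivity)
  refine ⟨6 * C₀ + 8 / √(lam / 2), by positivity, ?_⟩
  intro τ ε hτ hτ1 hε
  set c : ℕ := ⌈lam * |Real.log ε|⌉₊ + ⌈lam⌉₊ + 2 with hc
  have hcε : lam * |Real.log ε| + lam + 2 ≤ c := by
    rw [hc]; push_cast; linarith [Nat.le_ceil (lam * |Real.log ε|), Nat.le_ceil lam]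
  have hlε : 0 ≤ lam * |Real.log ε| := by positivity
  obtain ⟨n₁, hn₁⟩ := hZ τ hτ hτ1
  have e1 : ∀ᶠ n : ℕ in atTop, (2 * (c : ℝ) + 11) / τ ≤ Real.log n :=
    Pool.Agent.H21.PI.log_tendsto.eventually_ge_atTop _
  have e1' : ∀ᶠ n : ℕ in atTop, (2 * (c : ℝ) + 11) / lam ≤ Real.log n :=
    Pool.Agent.H21.PI.log_tendsto.eventually_ge_atTop _
  have e2 : ∀ᶠ n : ℕ in atTop, Real.log n ≤ (1 / (4 * lam)) * (n : ℝ) := by
    have h1 := (Real.isLittleO_log_id_atTop).bound (show (0:ℝ) < 1 / (4 * lam) by positivity)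
    have h2 := (tendsto_natCast_atTop_atTop (R := ℝ)).eventually h1
    filter_upwards [h2] with n hn
    rw [Real.norm_eq_abs, id, Real.norm_eq_abs, abs_of_nonneg (Nat.cast_nonneg n : (0:ℝ) ≤ n)] at hn
    exact (le_abs_self _).trans hn
  have e3 : ∀ᶠ n : ℕ in atTop, (Nat.primeCounting (2 * n) : ℝ) * Real.log ((2 * n : ℕ) : ℝ) /
      ((2 * n : ℕ) : ℝ) < 2 := by
    have h1 : Tendsto (fun n : ℕ => 2 * n) atTop atTop :=
      tendsto_id.const_mul_atTop' (by norm_num)
    exact h1.eventually (Pool.Agent.H21.PI.pi_tendsto.eventually (gt_mem_nhds (by norm_num)))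
  obtain ⟨n₀, hn₀⟩ := eventually_atTop.1 (e1.and (e1'.and (e2.and (e3.and
    (eventually_ge_atTop (max n₁ (4 * (c + 100))))))))
  refine ⟨n₀, fun n hn => ?_⟩
  obtain ⟨h1, h1', h2, h3, h4⟩ := hn₀ n hn
  have hn100 : 4 * (c + 100) ≤ n := (le_max_right _ _).trans h4
  have hnn₁ : n₁ ≤ n := (le_max_left _ _).trans h4
  have hnR : 4 * ((c : ℝ) + 100) ≤ n := by exact_mod_cast hn100
  have hc0 : (0:ℝ) ≤ c := Nat.cast_nonneg c
  have hn0 : (0:ℝ) < n := by linarith
  set Lg := Real.log n with hLg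
  have hLg1 : 2 * (c : ℝ) + 11 ≤ τ * Lg := by
    rw [div_le_iff₀ hτ] at h1; linarith
  have hLg2 : 2 * (c : ℝ) + 11 ≤ lam * Lg := by
    rw [div_le_iff₀ hl] at h1'; linarith
  have hLg0 : 0 < Lg := by
    by_contra h
    push Not at h
    have := mul_nonpos_of_nonneg_of_nonpos hτ.le h
    linarith
  have hLn : lam * Lg ≤ n / 4 := by
    have := mul_le_mul_of_nonneg_left h2 hl.le
    have h5 : lam * (1 / (4 * lam) * (n : ℝ)) = n / 4 := by field_simp
    linarith
  set T := ⌊τ * Lg⌋₊ with hT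
  set Λ := ⌊lam * Lg⌋₊ with hΛ
  have hΛle : (Λ : ℝ) ≤ lam * Lg := Nat.floor_le (by positivity)
  have hΛlt : lam * Lg < Λ + 1 := Nat.lt_floor_add_one _
  set A := (range (2 * n)).filter (fun m : ℕ => ε * n ≤ (m : ℝ) ∧ (m : ℝ) ≤ 3 / 2 * n ∧
    ∃ m' : ℕ, m < m' ∧ m' ≤ m + ⌊τ * Real.log n⌋₊ ∧ EvL lam m ∧ EvL lam m' ∧
      ⌊lam * Real.log (m : ℝ)⌋₊ = ⌊lam * Real.log (m' : ℝ)⌋₊) with hA
  have hAfin : ∀ m ∈ A, ⌊lam * Real.log (m : ℝ)⌋₊ ≤ Λ + c ∧ Λ ≤ ⌊lam * Real.log (m : ℝ)⌋₊ + c ∧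
      m + 4 + Λ + c ≤ 2 * n := by
    intro m hm
    rw [hA, mem_filter] at hm
    obtain ⟨-, g1, g2, -⟩ := hm
    have hm0 : (0:ℝ) < m := lt_of_lt_of_le (by positivity) g1
    have g3 : lam * Real.log m ≤ lam * Lg + lam := by
      have : Real.log m ≤ Real.log (3 / 2 * n) := Real.log_le_log hm0 g2
      rw [Real.log_mul (by norm_num) hn0.ne'] at this
      have h32 : Real.log (3 / 2) ≤ 1 := by
        have := Real.log_le_sub_one_of_pos (show (0:ℝ) < 3 / 2 by norm_num)
        linarith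
      have h5 : Real.log m ≤ Lg + 1 := by linarith
      have := mul_le_mul_of_nonneg_left h5 hl.le
      linarith
    have g4 : lam * Lg - lam * |Real.log ε| ≤ lam * Real.log m := by
      have : Real.log (ε * n) ≤ Real.log m := Real.log_le_log (by positivity) g1
      rw [Real.log_mul hε.ne' hn0.ne'] at this
      have h6 := neg_abs_le (Real.log ε)
      have h5 : Lg - |Real.log ε| ≤ Real.log m := by linarith
      have := mul_le_mul_of_nonneg_left h5 hl.le
      linarith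
    refine ⟨?_, ?_, ?_⟩
    · have : lam * Real.log m < ((Λ + c + 1 : ℕ) : ℝ) := by push_cast; linarith
      have := (Nat.floor_lt' (by omega)).2 this
      omega
    · have g5 : lam * Real.log m < ⌊lam * Real.log (m : ℝ)⌋₊ + 1 := Nat.lt_floor_add_one _
      have g6 : (Λ : ℝ) < (⌊lam * Real.log (m : ℝ)⌋₊ : ℝ) + c + 1 := by linarith
      have g7 : Λ < ⌊lam * Real.log (m : ℝ)⌋₊ + c + 1 := by exact_mod_cast g6
      omega
    · have g5 : ((m + 4 + Λ + c : ℕ) : ℝ) ≤ ((2 * n : ℕ) : ℝ) := by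
        push_cast
        linarith
      exact_mod_cast g5
  rcases lt_or_ge τ (lam / 2) with hτ2 | hτ2
  · -- small `τ`
    have hTc : 2 * c + 10 ≤ T := by
      have : ((2 * c + 10 : ℕ) : ℝ) ≤ τ * Lg := by push_cast; linarith
      exact Nat.le_floor this
    have hTle : (T : ℝ) ≤ τ * Lg := Nat.floor_le (by positivity)
    have h2T : 2 * T ≤ Λ := by
      refine Nat.le_floor ?_
      push_cast
      nlinarith
    have hcomb := zcl_comb hl n T c Λ A hTc h2T (by
      intro m hm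
      obtain ⟨g1, g2, g3⟩ := hAfin m hm
      rw [hA, mem_filter] at hm
      obtain ⟨-, -, -, m', k1, k2, k3, k4, k5⟩ := hm
      exact ⟨_, m', rfl, k5.symm, k1, k2, k3, k4, g2, g1, g3⟩)
    have hw : ∀ a : ℕ, 1 ≤ a → (a : ℝ) ≤ (lam + 3) * Lg →
        ((PQ (2 * n + 1) (Icc a (a + T))).card : ℝ) ≤ C₀ * √τ * n / Lg := by
      intro a ha1 ha2
      rw [card_PQ]
      exact hn₁ n hnn₁ a ha1 ha2
    have hT0 : 2 * (c : ℝ) + 10 ≤ T := by exact_mod_cast hTc
    have hττ : τ * Lg ≤ Lg := by nlinarith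
    have w0 := hw 1 le_rfl (by
      push_cast; nlinarith)
    have w1 := hw (Λ - c) (by omega) (by
      have : ((Λ - c : ℕ) : ℝ) ≤ Λ := by exact_mod_cast Nat.sub_le _ _
      nlinarith)
    have w2 := hw (Λ - c + T) (by omega) (by
      have k1 : ((Λ - c : ℕ) : ℝ) ≤ Λ := by exact_mod_cast Nat.sub_le _ _
      push_cast; nlinarith)
    have w3 := hw (Λ - c - T) (by omega) (by
      have : ((Λ - c - T : ℕ) : ℝ) ≤ Λ := by exact_mod_cast (by omega : Λ - c - T ≤ Λ)
      nlinarith)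
    have hcomb' : (A.card : ℝ) ≤ 2 * ((PQ (2 * n + 1) (Icc 1 (1 + T))).card : ℝ) +
      (2 * ((PQ (2 * n + 1) (Icc (Λ - c) (Λ - c + T))).card : ℝ) +
      ((PQ (2 * n + 1) (Icc (Λ - c + T) (Λ - c + T + T))).card : ℝ) +
      ((PQ (2 * n + 1) (Icc (Λ - c - T) (Λ - c - T + T))).card : ℝ)) := by
      exact_mod_cast hcomb
    have hpos : 0 ≤ 8 / √(lam / 2) * (√τ * n / Lg) := by positivity
    calc (A.card : ℝ) ≤ 6 * (C₀ * √τ * n / Lg) := by linarith
      _ ≤ 6 * (C₀ * √τ * n / Lg) + 8 / √(lam / 2) * (√τ * n / Lg) := by linarith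
      _ = (6 * C₀ + 8 / √(lam / 2)) * √τ * n / Lg := by ring
  · -- large `τ`
    have ht := zcl_triv hl n A (by
      intro m hm
      obtain ⟨g1, g2, g3⟩ := hAfin m hm
      rw [hA, mem_filter] at hm
      obtain ⟨-, -, -, m', k1, k2, k3, k4, k5⟩ := hm
      refine ⟨k3, ?_⟩
      unfold psl
      omega)
    have ht' : (A.card : ℝ) ≤ 2 * (Nat.primeCounting (2 * n) : ℝ) := by exact_mod_cast ht
    have hl2 : Lg ≤ Real.log ((2 * n : ℕ) : ℝ) := by
      rw [hLg]
      exact Real.log_le_log hn0 (by push_cast; linarith)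
    have h2n : (0:ℝ) < ((2 * n : ℕ) : ℝ) := by push_cast; linarith
    rw [div_lt_iff₀ h2n] at h3
    have hπ0 : (0:ℝ) ≤ Nat.primeCounting (2 * n) := Nat.cast_nonneg _
    have h5 : (Nat.primeCounting (2 * n) : ℝ) * Lg ≤ 4 * n := by
      have : (Nat.primeCounting (2 * n) : ℝ) * Lg ≤
        (Nat.primeCounting (2 * n) : ℝ) * Real.log ((2 * n : ℕ) : ℝ) :=
        mul_le_mul_of_nonneg_left hl2 hπ0
      push_cast at h3 this ⊢
      linarith
    have hs : √(lam / 2) ≤ √τ := Real.sqrt_le_sqrt hτ2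
    have hs0 : 0 < √(lam / 2) := Real.sqrt_pos.2 (by positivity)
    rw [le_div_iff₀ hLg0]
    calc (A.card : ℝ) * Lg ≤ 2 * (Nat.primeCounting (2 * n) : ℝ) * Lg := by gcongr
      _ ≤ 8 * n := by linarith
      _ = 8 / √(lam / 2) * √(lam / 2) * n := by rw [div_mul_cancel₀ _ hs0.ne']
      _ ≤ 8 / √(lam / 2) * √τ * n := by gcongr
      _ ≤ (6 * C₀ + 8 / √(lam / 2)) * √τ * n := by
        have : 0 ≤ 6 * C₀ * √τ * n := by positivity
        linarith

end Pool.Agent.H79.RP
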